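import Mathlib

/-!
No countable projective algebra of plane sets is universal for countable projective algebras.
-/

namespace Pool.Agent.Results.MP_3db952_lc.NoUniversalProjAlg

open Set

/-- The Euclidean plane. -/
abbrev Plane : Type := ℝ × ℝ

/-- The axis `X`. -/
def axisX : Set Plane := {p | p.2 = 0}

/-- The axis `Y`. -/
def axisY : Set Plane := {p | p.1 = 0}

/-- The first projection `{(x,0) : ∃ y, (x,y) ∈ S}`. -/
def proj1 (S : Set Plane) : Set Plane := {p | p.2 = 0 ∧ ∃ y : ℝ, (p.1, y) ∈ S}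

/-- The second projection `{(0,y) : ∃ x, (x,y) ∈ S}`. -/
def proj2 (S : Set Plane) : Set Plane := {p | p.1 = 0 ∧ ∃ x : ℝ, (x, p.2) ∈ S}

/-- The direct product of `A ⊆ X` and `B ⊆ Y`. -/
def dprod (A B : Set Plane) : Set Plane := {p | (p.1, (0 : ℝ)) ∈ A ∧ ((0 : ℝ), p.2) ∈ B}

/-- A projective algebra: a nonempty family of plane sets closed under the Boolean operations,
the two projections and the direct products of its members on the axes. -/
structure IsProjAlg (𝒜 : Set (Set Plane)) : Prop where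
  nonempty : 𝒜.Nonempty
  union : ∀ A ∈ 𝒜, ∀ B ∈ 𝒜, A ∪ B ∈ 𝒜
  inter : ∀ A ∈ 𝒜, ∀ B ∈ 𝒜, A ∩ B ∈ 𝒜
  compl : ∀ A ∈ 𝒜, Aᶜ ∈ 𝒜
  proj1 : ∀ A ∈ 𝒜, proj1 A ∈ 𝒜
  proj2 : ∀ A ∈ 𝒜, proj2 A ∈ 𝒜
  dprod : ∀ A ∈ 𝒜, ∀ B ∈ 𝒜, A ⊆ axisX → B ⊆ axisY → dprod A B ∈ 𝒜

/-- Two projective algebras are isomorphic: there is a bijection preserving the Boolean
operations, the projections and the direct product. -/
def Isomorphic (𝒜 ℬ : Set (Set Plane)) : Prop :=
  ∃ f : Set Plane → Set Plane, BijOn f 𝒜 ℬ ∧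
    (∀ A ∈ 𝒜, ∀ B ∈ 𝒜, f (A ∪ B) = f A ∪ f B) ∧
    (∀ A ∈ 𝒜, ∀ B ∈ 𝒜, f (A ∩ B) = f A ∩ f B) ∧
    (∀ A ∈ 𝒜, f Aᶜ = (f A)ᶜ) ∧
    (∀ A ∈ 𝒜, f (proj1 A) = proj1 (f A)) ∧
    (∀ A ∈ 𝒜, f (proj2 A) = proj2 (f A)) ∧
    (∀ A ∈ 𝒜, ∀ B ∈ 𝒜, A ⊆ axisX → B ⊆ axisY → f (dprod A B) = dprod (f A) (f B))

/-- `𝒜` embeds in `𝒰`: it is isomorphic to a subalgebra of `𝒰`. -/
def EmbedsIn (𝒜 𝒰 : Set (Set Plane)) : Prop :=
  ∃ ℬ : Set (Set Plane), ℬ ⊆ 𝒰 ∧ IsProjAlg ℬ ∧ Isomorphic 𝒜 ℬ

/-! ### The generated algebra -/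

/-- One stage of generation. -/
def stage (C : Set (Set Plane)) : Set (Set Plane) :=
  C ∪ image2 (fun A B => A ∪ B) C C ∪ image2 (fun A B => A ∩ B) C C ∪ image (fun A => Aᶜ) C ∪
    image proj1 C ∪ image proj2 C ∪ image2 dprod C C

/-- The stages of generation. -/
def stages (G : Set (Set Plane)) : ℕ → Set (Set Plane)
  | 0 => G
  | n + 1 => stage (stages G n)

/-- The generated family. -/
def gen (G : Set (Set Plane)) : Set (Set Plane) := ⋃ n, stages G n

lemma stage_countable {C : Set (Set Plane)} (h : C.Countable) : (stage C).Countable := by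
  unfold stage
  exact (((((h.union (h.image2 h _)).union (h.image2 h _)).union (h.image _)).union
    (h.image _)).union (h.image _)).union (h.image2 h _)

lemma gen_countable {G : Set (Set Plane)} (h : G.Countable) : (gen G).Countable := by
  refine countable_iUnion ?_
  intro n
  induction n with
  | zero => exact h
  | succ n ih => exact stage_countable ih

lemma subset_stage (C : Set (Set Plane)) : C ⊆ stage C := by
  intro A hA
  simp only [stage, mem_union]
  tauto

lemma stages_mono (G : Set (Set Plane)) : Monotone (stages G) :=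
  monotone_nat_of_le_succ fun n => subset_stage _

lemma subset_gen (G : Set (Set Plane)) : G ⊆ gen G := fun _ hA => mem_iUnion.2 ⟨0, hA⟩

lemma gen_common {G : Set (Set Plane)} {A B : Set Plane} (hA : A ∈ gen G) (hB : B ∈ gen G) :
    ∃ n, A ∈ stages G n ∧ B ∈ stages G n := by
  obtain ⟨m, hm⟩ := mem_iUnion.1 hA
  obtain ⟨n, hn⟩ := mem_iUnion.1 hB
  exact ⟨max m n, stages_mono G (le_max_left _ _) hm, stages_mono G (le_max_right _ _) hn⟩

lemma gen_isProjAlg {G : Set (Set Plane)} (hG : G.Nonempty) : IsProjAlg (gen G) where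
  nonempty := hG.mono (subset_gen G)
  union := by
    intro A hA B hB
    obtain ⟨n, h1, h2⟩ := gen_common hA hB
    refine mem_iUnion.2 ⟨n + 1, ?_⟩
    have : A ∪ B ∈ image2 (fun A B => A ∪ B) (stages G n) (stages G n) := ⟨A, h1, B, h2, rfl⟩
    simp only [stages, stage, mem_union]
    tauto
  inter := by
    intro A hA B hB
    obtain ⟨n, h1, h2⟩ := gen_common hA hB
    refine mem_iUnion.2 ⟨n + 1, ?_⟩
    have : A ∩ B ∈ image2 (fun A B => A ∩ B) (stages G n) (stages G n) := ⟨A, h1, B, h2, rfl⟩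
    simp only [stages, stage, mem_union]
    tauto
  compl := by
    intro A hA
    obtain ⟨n, h1, -⟩ := gen_common hA hA
    refine mem_iUnion.2 ⟨n + 1, ?_⟩
    have : Aᶜ ∈ image (fun A => Aᶜ) (stages G n) := ⟨A, h1, rfl⟩
    simp only [stages, stage, mem_union]
    tauto
  proj1 := by
    intro A hA
    obtain ⟨n, h1, -⟩ := gen_common hA hA
    refine mem_iUnion.2 ⟨n + 1, ?_⟩
    have : NoUniversalProjAlg.proj1 A ∈ image NoUniversalProjAlg.proj1 (stages G n) :=
      ⟨A, h1, rfl⟩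
    simp only [stages, stage, mem_union]
    tauto
  proj2 := by
    intro A hA
    obtain ⟨n, h1, -⟩ := gen_common hA hA
    refine mem_iUnion.2 ⟨n + 1, ?_⟩
    have : NoUniversalProjAlg.proj2 A ∈ image NoUniversalProjAlg.proj2 (stages G n) :=
      ⟨A, h1, rfl⟩
    simp only [stages, stage, mem_union]
    tauto
  dprod := by
    intro A hA B hB _ _
    obtain ⟨n, h1, h2⟩ := gen_common hA hB
    refine mem_iUnion.2 ⟨n + 1, ?_⟩
    have : NoUniversalProjAlg.dprod A B ∈
        image2 NoUniversalProjAlg.dprod (stages G n) (stages G n) := ⟨A, h1, B, h2, rfl⟩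
    simp only [stages, stage, mem_union]
    tauto

/-! ### The half graph and its points -/

/-- The half graph on the natural numbers. -/
def halfGraph : Set Plane := {p | ∃ i j : ℕ, i ≤ j ∧ p = ((i : ℝ), (j : ℝ))}

/-- A set of natural numbers on the axis `X`. -/
def onAxis (S : Set ℕ) : Set Plane := {p | ∃ i ∈ S, p = ((i : ℝ), (0 : ℝ))}

/-- The recursively defined tails. -/
def tail (R : Set Plane) : ℕ → Set Plane
  | 0 => proj1 R
  | n + 1 => proj1 (dprod (tail R n) (proj2 (R ∩ dprod (tail R n) (proj2 R))) ∩ Rᶜ)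

lemma proj1_subset (S : Set Plane) : proj1 S ⊆ axisX := fun _ h => h.1

lemma proj2_subset (S : Set Plane) : proj2 S ⊆ axisY := fun _ h => h.1

lemma tail_subset (R : Set Plane) (n : ℕ) : tail R n ⊆ axisX := by
  cases n with
  | zero => exact proj1_subset _
  | succ n => exact proj1_subset _

lemma tail_mem {𝒜 : Set (Set Plane)} (h : IsProjAlg 𝒜) {R : Set Plane} (hR : R ∈ 𝒜) (n : ℕ) :
    tail R n ∈ 𝒜 := by
  induction n with
  | zero => exact h.proj1 _ hR
  | succ n ih =>
    refine h.proj1 _ (h.inter _ (h.dprod _ ih _ (h.proj2 _ (h.inter _ hR _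
      (h.dprod _ ih _ (h.proj2 _ hR) (tail_subset R n) (proj2_subset _)))) (tail_subset R n)
      (proj2_subset _)) _ (h.compl _ hR))

lemma mem_halfGraph (x y : ℝ) :
    ((x, y) : Plane) ∈ halfGraph ↔ ∃ i j : ℕ, i ≤ j ∧ x = i ∧ y = j := by
  simp [halfGraph, Prod.ext_iff]

lemma tail_halfGraph (n : ℕ) : tail halfGraph n = {p | ∃ i : ℕ, n ≤ i ∧ p = ((i : ℝ), 0)} := by
  induction n with
  | zero =>
    ext ⟨x, y⟩
    simp only [tail, proj1, mem_ofPred_eq, mem_halfGraph, Prod.mk.injEq]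
    constructor
    · rintro ⟨rfl, y, i, j, -, rfl, -⟩
      exact ⟨i, Nat.zero_le _, rfl, rfl⟩
    · rintro ⟨i, -, rfl, rfl⟩
      exact ⟨rfl, i, i, i, le_rfl, rfl, rfl⟩
  | succ n ih =>
    have h2 : proj2 (halfGraph ∩ dprod (tail halfGraph n) (proj2 halfGraph)) =
        {p | ∃ j : ℕ, n ≤ j ∧ p = ((0 : ℝ), (j : ℝ))} := by
      rw [ih]
      ext ⟨x, y⟩
      simp only [proj2, dprod, mem_ofPred_eq, mem_inter_iff, mem_halfGraph, Prod.mk.injEq]
      constructor
      · rintro ⟨rfl, x, ⟨i, j, hij, rfl, rfl⟩, ⟨i', hi', h1, -⟩, -⟩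
        have : i = i' := by exact_mod_cast h1
        exact ⟨j, by omega, rfl, rfl⟩
      · rintro ⟨j, hj, rfl, rfl⟩
        exact ⟨rfl, j, ⟨j, j, le_rfl, rfl, rfl⟩, ⟨j, hj, rfl, trivial⟩, trivial, j, j, j, le_rfl,
          rfl, rfl⟩
    rw [tail, h2, ih]
    ext ⟨x, y⟩
    simp only [proj1, dprod, mem_ofPred_eq, mem_inter_iff, mem_compl_iff, mem_halfGraph,
      Prod.mk.injEq]
    constructor
    · rintro ⟨rfl, y, ⟨⟨i, hi, rfl, -⟩, j, hj, -, rfl⟩, hn⟩
      refine ⟨i, ?_, rfl, rfl⟩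
      by_contra hlt
      exact hn ⟨i, j, by omega, rfl, rfl⟩
    · rintro ⟨i, hi, rfl, rfl⟩
      refine ⟨rfl, n, ⟨⟨i, by omega, rfl, trivial⟩, n, le_rfl, trivial, rfl⟩, ?_⟩
      rintro ⟨i', j', h1, h2, h3⟩
      have h2' : i = i' := by exact_mod_cast h2
      have h3' : n = j' := by exact_mod_cast h3
      omega

lemma point_inter (S : Set ℕ) (n : ℕ) :
    tail halfGraph n ∩ (tail halfGraph (n + 1))ᶜ ∩ onAxis S = ∅ ↔ n ∉ S := by
  rw [tail_halfGraph, tail_halfGraph]
  constructor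
  · intro h hn
    have : (((n : ℝ), (0 : ℝ)) : Plane) ∈ (∅ : Set Plane) := by
      rw [← h]
      refine ⟨⟨⟨n, le_rfl, rfl⟩, ?_⟩, n, hn, rfl⟩
      rintro ⟨i, hi, h⟩
      have h' : (n : ℝ) = i := (Prod.ext_iff.1 h).1
      have : n = i := by exact_mod_cast h'
      omega
    exact this
  · intro hn
    rw [eq_empty_iff_forall_notMem]
    rintro p ⟨⟨⟨i, hi, rfl⟩, h2⟩, j, hj, h3⟩
    have h' : (i : ℝ) = j := (Prod.ext_iff.1 h3).1
    have hij : i = j := by exact_mod_cast h'
    subst hij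
    by_cases hin : i = n
    · subst hin; exact hn hj
    · exact h2 ⟨i, by omega, rfl⟩

/-- No countable projective algebra is universal for countable projective algebras. -/
theorem result : ¬ ∃ 𝒰 : Set (Set Plane), IsProjAlg 𝒰 ∧ 𝒰.Countable ∧
    ∀ 𝒜 : Set (Set Plane), IsProjAlg 𝒜 → 𝒜.Countable → EmbedsIn 𝒜 𝒰 := by
  rintro ⟨𝒰, -, hc, hU⟩
  -- the algebras
  have hG : ∀ S : Set ℕ, ({halfGraph, onAxis S} : Set (Set Plane)).Countable := fun S =>
    (Set.toFinite _).countable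
  have hne : ∀ S : Set ℕ, ({halfGraph, onAxis S} : Set (Set Plane)).Nonempty := fun S =>
    ⟨halfGraph, by simp⟩
  have hemb := fun S : Set ℕ => hU _ (gen_isProjAlg (hne S)) (gen_countable (hG S))
  choose ℬ hB hBalg f hbij hun hint hcompl hp1 hp2 hdp using hemb
  have hR : ∀ S : Set ℕ, halfGraph ∈ gen {halfGraph, onAxis S} := fun S =>
    subset_gen _ (by simp)
  have hP : ∀ S : Set ℕ, onAxis S ∈ gen {halfGraph, onAxis S} := fun S =>
    subset_gen _ (by simp)
  -- tails are preserved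
  have htail : ∀ (S : Set ℕ) (n : ℕ), f S (tail halfGraph n) = tail (f S halfGraph) n := by
    intro S n
    have hA := gen_isProjAlg (hne S)
    induction n with
    | zero => exact hp1 S _ (hR S)
    | succ n ih =>
      have m1 := tail_mem hA (hR S) n
      have m2 := hA.proj2 _ (hR S)
      have m3 := hA.dprod _ m1 _ m2 (tail_subset _ n) (proj2_subset _)
      have m4 := hA.inter _ (hR S) _ m3
      have m5 := hA.proj2 _ m4
      have m6 := hA.dprod _ m1 _ m5 (tail_subset _ n) (proj2_subset _)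
      have m7 := hA.compl _ (hR S)
      have m8 := hA.inter _ m6 _ m7
      rw [tail, hp1 S _ m8, hint S _ m6 _ m7, hcompl S _ (hR S),
        hdp S _ m1 _ m5 (tail_subset _ n) (proj2_subset _), hp2 S _ m4, hint S _ (hR S) _ m3,
        hdp S _ m1 _ m2 (tail_subset _ n) (proj2_subset _), hp2 S _ (hR S), ih]
      rfl
  have hempty_mem : ∀ S : Set ℕ, (∅ : Set Plane) ∈ gen {halfGraph, onAxis S} := by
    intro S
    have hA := gen_isProjAlg (hne S)
    have := hA.inter _ (hR S) _ (hA.compl _ (hR S))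
    rwa [inter_compl_self] at this
  have hempty : ∀ S : Set ℕ, f S ∅ = ∅ := by
    intro S
    have hA := gen_isProjAlg (hne S)
    have h1 := hint S _ (hR S) _ (hA.compl _ (hR S))
    rwa [inter_compl_self, hcompl S _ (hR S), inter_compl_self] at h1
  -- the key equivalence
  have key : ∀ (S : Set ℕ) (n : ℕ),
      tail (f S halfGraph) n ∩ (tail (f S halfGraph) (n + 1))ᶜ ∩ f S (onAxis S) = ∅ ↔ n ∉ S := by
    intro S n
    have hA := gen_isProjAlg (hne S)
    have m1 := tail_mem hA (hR S) n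
    have m2 := tail_mem hA (hR S) (n + 1)
    have m3 := hA.compl _ m2
    have m4 := hA.inter _ m1 _ m3
    have m5 := hA.inter _ m4 _ (hP S)
    rw [← point_inter S n, ← htail S n, ← htail S (n + 1), ← hcompl S _ m2, ← hint S _ m1 _ m3,
      ← hint S _ m4 _ (hP S)]
    constructor
    · intro h
      exact (hbij S).injOn m5 (hempty_mem S) (by rw [h, hempty S])
    · intro h
      rw [h, hempty S]
  -- the code of `S` in `𝒰 × 𝒰`
  let code : Set ℕ → 𝒰 × 𝒰 := fun S =>
    (⟨f S halfGraph, hB S ((hbij S).mapsTo (hR S))⟩,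
      ⟨f S (onAxis S), hB S ((hbij S).mapsTo (hP S))⟩)
  have hinj : Function.Injective code := by
    intro S T hST
    have h1 : f S halfGraph = f T halfGraph := by
      have := congrArg (fun z => (z.1 : Set Plane)) hST
      exact this
    have h2 : f S (onAxis S) = f T (onAxis T) := by
      have := congrArg (fun z => (z.2 : Set Plane)) hST
      exact this
    ext n
    have kS := key S n
    have kT := key T n
    rw [h1, h2] at kS
    rw [kS] at kT
    exact not_iff_not.1 kT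
  have hcU : Countable 𝒰 := hc.to_subtype
  have hcS : Countable (Set ℕ) := hinj.countable
  obtain ⟨g, hg⟩ := exists_injective_nat (Set ℕ)
  exact Function.cantor_injective g hg

end Pool.Agent.Results.MP_3db952_lc.NoUniversalProjAlg
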